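import Mathlib
import Pool.Agent.H58.NRDefs

/-!
# Subdivided complete graphs: points, adjacency, walks along threads
-/

set_option autoImplicit false

namespace Pool.Agent.H53.NR

open SimpleGraph

variable {V : Type} [LinearOrder V]

/-- vertices of the subdivision: branch vertices and interior vertices (some of them junk). -/
abbrev W (V : Type) (D : ℕ) : Type := V ⊕ (V × V × Fin D)

/-- the point at distance `i` from `u` on the thread from `u` to `v`. -/
def pt (D : ℕ) (u v : V) (i : ℕ) : W V D :=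
  if h0 : i = 0 then Sum.inl u
  else if h : i < D then
    (if u < v then Sum.inr (u, v, ⟨i, h⟩) else Sum.inr (v, u, ⟨D - i, by omega⟩))
  else Sum.inl v

@[simp] lemma pt_zero (D : ℕ) (u v : V) : pt D u v 0 = Sum.inl u := by simp [pt]

lemma pt_D {D : ℕ} (hD : 0 < D) (u v : V) : pt D u v D = Sum.inl v := by
  have : D ≠ 0 := by omega
  simp [pt, this]

lemma pt_ge {D i : ℕ} (hD : 0 < D) (h : D ≤ i) (u v : V) : pt D u v i = Sum.inl v := by
  have : i ≠ 0 := by omega
  have h2 : ¬ i < D := by omega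
  simp [pt, this, h2]

lemma pt_lt {D i : ℕ} (h0 : 0 < i) (h : i < D) {u v : V} (huv : u < v) :
    pt D u v i = Sum.inr (u, v, ⟨i, h⟩) := by
  have : i ≠ 0 := by omega
  simp [pt, this, h, huv]

lemma pt_gt {D i : ℕ} (h0 : 0 < i) (h : i < D) {u v : V} (huv : v < u) :
    pt D u v i = Sum.inr (v, u, ⟨D - i, by omega⟩) := by
  have : i ≠ 0 := by omega
  have h2 : ¬ u < v := not_lt.mpr huv.le
  simp [pt, this, h, h2]

lemma pt_symm {D i : ℕ} (hD : 0 < D) (h : i ≤ D) {u v : V} (huv : u ≠ v) :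
    pt D v u i = pt D u v (D - i) := by
  rcases Nat.eq_zero_or_pos i with rfl | h0
  · rw [pt_zero, Nat.sub_zero, pt_D hD]
  · rcases h.lt_or_eq with h1 | rfl
    · rcases lt_or_gt_of_ne huv with h2 | h2
      · rw [pt_gt h0 h1 h2, pt_lt (by omega) (by omega) h2]
      · rw [pt_lt h0 h1 h2, pt_gt (by omega) (by omega) h2]
        have : D - (D - i) = i := by omega
        simp [this]
    · rw [pt_D hD, Nat.sub_self, pt_zero]

lemma pt_inl {D i : ℕ} {u v a : V} (h : pt D u v i = Sum.inl a) :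
    (i = 0 ∧ u = a) ∨ (D ≤ i ∧ v = a) := by
  unfold pt at h
  split_ifs at h with h1 h2 h3
  · left; exact ⟨h1, by simpa using h⟩
  · right; exact ⟨by omega, by simpa using h⟩

lemma pt_inj {D i i' : ℕ} {u v u' v' : V} (h0 : 0 < i) (h1 : i < D)
    (huv : u ≠ v) (huv' : u' ≠ v') (h : pt D u v i = pt D u' v' i') :
    (u' = u ∧ v' = v ∧ i' = i) ∨ (u' = v ∧ v' = u ∧ i' = D - i) := by
  have hi' : 0 < i' ∧ i' < D := by
    by_contra hc
    have h3 : ∃ a : V, pt D u' v' i' = Sum.inl a := by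
      by_cases h4 : i' = 0
      · subst h4; exact ⟨u', pt_zero _ _ _⟩
      · exact ⟨v', pt_ge (by omega) (by omega) _ _⟩
    obtain ⟨a, ha⟩ := h3
    rw [ha] at h
    rcases pt_inl h with h5 | h5 <;> omega
  obtain ⟨h0', h1'⟩ := hi'
  rcases lt_or_gt_of_ne huv with h2 | h2 <;> rcases lt_or_gt_of_ne huv' with h3 | h3
  · rw [pt_lt h0 h1 h2, pt_lt h0' h1' h3] at h
    simp at h
    left; exact ⟨h.1.symm, h.2.1.symm, h.2.2.symm⟩
  · rw [pt_lt h0 h1 h2, pt_gt h0' h1' h3] at h
    simp at h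
    right; exact ⟨h.2.1.symm, h.1.symm, by omega⟩
  · rw [pt_gt h0 h1 h2, pt_lt h0' h1' h3] at h
    simp at h
    right; exact ⟨h.1.symm, h.2.1.symm, by omega⟩
  · rw [pt_gt h0 h1 h2, pt_gt h0' h1' h3] at h
    simp at h
    left; exact ⟨h.2.1.symm, h.1.symm, by omega⟩

/-- the subdivision of the complete graph. -/
def HG (V : Type) [LinearOrder V] (D : ℕ) (hD : 2 ≤ D) : SimpleGraph (W V D) where
  Adj a b := ∃ u v : V, ∃ i : ℕ, u ≠ v ∧ i < D ∧ a = pt D u v i ∧ b = pt D u v (i + 1)
  symm := ⟨by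
    rintro a b ⟨u, v, i, huv, hi, rfl, rfl⟩
    refine ⟨v, u, D - (i + 1), huv.symm, by omega, ?_, ?_⟩
    · rw [pt_symm (by omega) (by omega) huv]
      congr 1; omega
    · rw [pt_symm (by omega) (by omega) huv]
      congr 1; omega⟩
  loopless := ⟨by
    rintro a ⟨u, v, i, huv, hi, h1, h2⟩
    rw [h1] at h2
    rcases Nat.eq_zero_or_pos i with rfl | h0
    · rw [pt_zero] at h2
      rcases pt_inl h2.symm with h | h <;> omega
    · rcases pt_inj h0 hi huv huv h2 with h | h
      · omega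
      · exact huv h.1⟩

section

variable {D : ℕ} {hD : 2 ≤ D}

lemma adj_iff {a b : W V D} : (HG V D hD).Adj a b ↔
    ∃ u v : V, ∃ i : ℕ, u ≠ v ∧ i < D ∧ a = pt D u v i ∧ b = pt D u v (i + 1) := Iff.rfl

lemma nb_branch {u : V} {b : W V D} (h : (HG V D hD).Adj (Sum.inl u) b) :
    ∃ v, u ≠ v ∧ b = pt D u v 1 := by
  obtain ⟨a, c, i, hac, hi, h1, h2⟩ := adj_iff.mp h
  rcases pt_inl h1.symm with ⟨rfl, rfl⟩ | h3
  · exact ⟨c, hac, h2⟩
  · omega

lemma nb_int {u v : V} {i : ℕ} {b : W V D} (huv : u ≠ v) (h0 : 0 < i) (h1 : i < D)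
    (h : (HG V D hD).Adj (pt D u v i) b) : b = pt D u v (i + 1) ∨ b = pt D u v (i - 1) := by
  obtain ⟨a, c, j, hac, hj, h2, h3⟩ := adj_iff.mp h
  rcases pt_inj h0 h1 huv hac h2 with ⟨rfl, rfl, rfl⟩ | ⟨rfl, rfl, rfl⟩
  · exact Or.inl h3
  · right
    rw [h3, pt_symm (by omega) (by omega) huv]
    congr 1; omega

/-- A point is a branch vertex or an interior vertex of a thread or junk. -/
lemma adj_cases {a b : W V D} (h : (HG V D hD).Adj a b) :
    (∃ u, a = Sum.inl u) ∨ ∃ u v : V, ∃ i : ℕ, u ≠ v ∧ 0 < i ∧ i < D ∧ a = pt D u v i ∧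
      b = pt D u v (i + 1) := by
  obtain ⟨u, v, i, huv, hi, h1, h2⟩ := adj_iff.mp h
  rcases Nat.eq_zero_or_pos i with rfl | h0
  · left; exact ⟨u, by rw [h1, pt_zero]⟩
  · right; exact ⟨u, v, i, huv, h0, hi, h1, h2⟩

/-! ### Injective walks as sequences -/

/-- `x 0, ..., x L` is a path. -/
structure PSeq (D : ℕ) (hD : 2 ≤ D) (x : ℕ → W V D) (L : ℕ) : Prop where
  adj : ∀ j, j < L → (HG V D hD).Adj (x j) (x (j + 1))
  inj : ∀ i j, i ≤ L → j ≤ L → x i = x j → i = j

lemma PSeq.rev {x : ℕ → W V D} {L : ℕ} (h : PSeq D hD x L) :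
    PSeq D hD (fun j => x (L - j)) L := by
  constructor
  · intro j hj
    have := h.adj (L - (j + 1)) (by omega)
    have e : L - (j + 1) + 1 = L - j := by omega
    rw [e] at this
    exact this.symm
  · intro i j hi hj hij
    have := h.inj (L - i) (L - j) (by omega) (by omega) hij
    omega

/-- (F): going forward along a thread. -/
lemma PSeq.fwd {x : ℕ → W V D} {L : ℕ} (h : PSeq D hD x L) {u v : V} (huv : u ≠ v) {j i : ℕ}
    (h0 : x j = pt D u v i) (h1 : x (j + 1) = pt D u v (i + 1)) :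
    ∀ m, i + m ≤ D → j + m ≤ L → x (j + m) = pt D u v (i + m) := by
  intro m
  induction m using Nat.strong_induction_on with
  | _ m ih =>
    intro h2 h3
    match m, ih, h2, h3 with
    | 0, _, _, _ => simpa using h0
    | 1, _, _, _ => simpa using h1
    | k + 2, ih, h2, h3 =>
      have e1 := ih (k + 1) (by omega) (by omega) (by omega)
      have e0 := ih k (by omega) (by omega) (by omega)
      have ha := h.adj (j + (k + 1)) (by omega)
      rw [e1] at ha
      rcases nb_int huv (by omega) (by omega) ha with h4 | h4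
      · have a1 : j + (k + 2) = j + (k + 1) + 1 := by omega
        have a2 : i + (k + 2) = i + (k + 1) + 1 := by omega
        rw [a1, a2]; exact h4
      · exfalso
        have a2 : i + (k + 1) - 1 = i + k := by omega
        rw [a2, ← e0] at h4
        have := h.inj _ _ (by omega) (by omega) h4
        omega

/-- Going backward along a thread. -/
lemma PSeq.bwd {x : ℕ → W V D} {L : ℕ} (h : PSeq D hD x L) {u v : V} (huv : u ≠ v) {j i : ℕ}
    (hj : j + 1 ≤ L)
    (h0 : x (j + 1) = pt D u v i) (h1 : x j = pt D u v (i + 1)) :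
    ∀ m, i + m ≤ D → m ≤ j + 1 → x (j + 1 - m) = pt D u v (i + m) := by
  intro m hm hmj
  have hr := h.rev
  have e0 : (fun j => x (L - j)) (L - (j + 1)) = pt D u v i := by
    have : L - (L - (j + 1)) = j + 1 := by omega
    simp only [this]; exact h0
  have e1 : (fun j => x (L - j)) (L - (j + 1) + 1) = pt D u v (i + 1) := by
    have : L - (L - (j + 1) + 1) = j := by omega
    simp only [this]; exact h1
  have := hr.fwd huv e0 e1 m hm (by omega)
  have e : L - (L - (j + 1) + m) = j + 1 - m := by omega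
  simp only [e] at this
  exact this

end

/-! ### Walks along a thread -/

/-- the walk along a sequence. -/
def mkWalk {U : Type} {G : SimpleGraph U} (x : ℕ → U) :
    (n : ℕ) → (∀ i, i < n → G.Adj (x i) (x (i + 1))) → G.Walk (x 0) (x n)
  | 0, _ => Walk.nil
  | n + 1, h => (mkWalk x n (fun i hi => h i (by omega))).concat (h n (by omega))

lemma mkWalk_support {U : Type} {G : SimpleGraph U} (x : ℕ → U) (n : ℕ)
    (h : ∀ i, i < n → G.Adj (x i) (x (i + 1))) :
    (mkWalk x n h).support = (List.range (n + 1)).map x := by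
  induction n with
  | zero => simp [mkWalk]
  | succ n ih =>
    rw [mkWalk, Walk.support_concat, ih, List.range_succ (n := n + 1)]
    simp

/-- the walk along the thread. -/
def tw (D : ℕ) (hD : 2 ≤ D) (u v : V) (huv : u ≠ v) :
    (HG V D hD).Walk (Sum.inl u) (Sum.inl v) :=
  (mkWalk (G := HG V D hD) (pt D u v) D
    (fun i hi => adj_iff.mpr ⟨u, v, i, huv, hi, rfl, rfl⟩)).copy
      (pt_zero D u v) (pt_D (by omega) u v)

lemma tw_support (D : ℕ) (hD : 2 ≤ D) (u v : V) (huv : u ≠ v) :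
    (tw D hD u v huv).support = (List.range (D + 1)).map (pt D u v) := by
  rw [tw, Walk.support_copy, mkWalk_support]

lemma pt_injOn {D : ℕ} {u v : V} (huv : u ≠ v) {i j : ℕ} (hi : i ≤ D) (hj : j ≤ D) (hD : 2 ≤ D)
    (h : pt D u v i = pt D u v j) : i = j := by
  rcases Nat.eq_zero_or_pos i with rfl | h0
  · rw [pt_zero] at h
    rcases pt_inl h.symm with h1 | h1
    · omega
    · exact absurd h1.2.symm huv
  · rcases hi.lt_or_eq with h1 | rfl
    · rcases pt_inj h0 h1 huv huv h with h2 | h2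
      · exact h2.2.2.symm
      · exact absurd h2.1 huv
    · rw [pt_D (by omega)] at h
      rcases pt_inl h.symm with h1 | h1
      · exact absurd h1.2 huv
      · omega

lemma tw_isPath (D : ℕ) (hD : 2 ≤ D) (u v : V) (huv : u ≠ v) : (tw D hD u v huv).IsPath := by
  rw [Walk.isPath_def, tw_support]
  apply List.Nodup.map_on _ List.nodup_range
  intro i hi j hj hij
  rw [List.mem_range] at hi hj
  exact pt_injOn huv (by omega) (by omega) hD hij

lemma mem_tw {D : ℕ} {hD : 2 ≤ D} {u v : V} {huv : u ≠ v} {w : W V D} :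
    w ∈ (tw D hD u v huv).support ↔ ∃ i, i ≤ D ∧ pt D u v i = w := by
  rw [tw_support, List.mem_map]
  constructor
  · rintro ⟨i, hi, h⟩
    rw [List.mem_range] at hi
    exact ⟨i, by omega, h⟩
  · rintro ⟨i, hi, h⟩
    exact ⟨i, List.mem_range.mpr (by omega), h⟩

end Pool.Agent.H53.NR
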