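import Mathlib
import Pool.Agent.H58.NRDefs
import Pool.Agent.H53.NRGraph1

/-!
# A good colouring of the subdivided complete graph is nonrepetitive
-/

set_option autoImplicit false

namespace Pool.Agent.H53.NR

open SimpleGraph Pool.Agent.H58.NR

variable {V : Type} [LinearOrder V]

/-- leg windows -/
def LW (K x : ℕ) : Prop := (1 ≤ x ∧ x + K ≤ NN K + 1) ∨ (NN K + 11 ≤ x ∧ x + K ≤ DD K)

/-- a good colouring -/
structure Good (K : ℕ) (c : W V (DD K) → ℕ) : Prop where
  sq : ∀ u v : V, u ≠ v → ∀ p i, 1 ≤ p → 1 ≤ i → i + 2 * p ≤ DD K →
    ∃ k < p, c (pt (DD K) u v (i + k)) ≠ c (pt (DD K) u v (i + p + k))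
  leg : ∀ u v : V, u ≠ v → LegGood K (c (Sum.inl u)) ∅ (fun i => c (pt (DD K) u v i))
  sep : ∀ u v u' v' : V, u ≠ v → u' ≠ v' → ¬ (u' = u ∧ v' = v) → ¬ (u' = v ∧ v' = u) →
    ∀ x y, LW K x → LW K y → ∃ i < K, c (pt (DD K) u v (x + i)) ≠ c (pt (DD K) u' v' (y + i))

lemma Good.sep' {K : ℕ} {c : W V (DD K) → ℕ} (hc : Good K c) {u v u' v' : V} (huv : u ≠ v)
    (huv' : u' ≠ v') (h1 : ¬ (u' = u ∧ v' = v)) (h2 : ¬ (u' = v ∧ v' = u)) {x y : ℕ}
    (hx : LW K x) (hy : LW K y)
    (h : ∀ i < K, c (pt (DD K) u v (x + i)) = c (pt (DD K) u' v' (y + i))) : False := by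
  obtain ⟨i, hi, h3⟩ := hc.sep u v u' v' huv huv' h1 h2 x y hx hy
  exact h3 (h i hi)

lemma block {K z : ℕ} (h1 : 1 ≤ z) (h2 : z + 2 * K + 10 ≤ DD K) :
    ∃ o, o ≤ K + 10 ∧ LW K (z + o) := by
  have hN : NN K = 50 * K := rfl
  have hD : DD K = 100 * K + 11 := rfl
  by_cases h3 : z + K ≤ NN K + 1 ∨ NN K + 11 ≤ z
  · refine ⟨0, by omega, ?_⟩
    unfold LW
    omega
  · refine ⟨K + 10, by omega, ?_⟩
    unfold LW
    omega

lemma lw_left {K x : ℕ} (h1 : 1 ≤ x) (h2 : x + K ≤ 50 * K + 1) : LW K x := by
  have hN : NN K = 50 * K := rfl
  left; omega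

lemma hD2 (K : ℕ) : 2 ≤ DD K := by unfold DD; omega

section

variable {K : ℕ} {c : W V (DD K) → ℕ} {x : ℕ → W V (DD K)} {t : ℕ}

lemma nobranch (hc : Good K c) (ht : 0 < t) (hp : PSeq (DD K) (hD2 K) x (2 * t - 1))
    (hrep : ∀ i < t, c (x i) = c (x (i + t)))
    (hnb : ∀ j ≤ 2 * t - 1, ∀ a : V, x j ≠ Sum.inl a) : False := by
  have hD := hD2 K
  rcases adj_cases (hp.adj 0 (by omega)) with ⟨u, hu⟩ | ⟨u, v, i, huv, h0, h1, h2, h3⟩
  · exact hnb 0 (by omega) u hu
  · have F := hp.fwd huv h2 h3
    have hlt : i + (2 * t - 1) < DD K := by
      by_contra hcon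
      have := F (DD K - i) (by omega) (by omega)
      have e : i + (DD K - i) = DD K := by omega
      rw [e, pt_D (by omega)] at this
      exact hnb _ (by omega) v this
    obtain ⟨k, hk, hne⟩ := hc.sq u v huv t i (by omega) (by omega) (by omega)
    apply hne
    have e1 := F k (by omega) (by omega)
    have e2 := F (k + t) (by omega) (by omega)
    have e3 := hrep k hk
    rw [zero_add] at e1 e2
    rw [← e1, e3, e2]
    congr 2
    omega

/-- threads from the first branch vertex on. -/
lemma iter (hp : PSeq (DD K) (hD2 K) x (2 * t - 1)) {j0 : ℕ} {u : V} (hu : x j0 = Sum.inl u) :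
    ∀ k, j0 + k * DD K < 2 * t - 1 → ∃ a b : V, a ≠ b ∧
      ∀ i, i ≤ DD K → j0 + k * DD K + i ≤ 2 * t - 1 → x (j0 + k * DD K + i) = pt (DD K) a b i := by
  have hD := hD2 K
  have key : ∀ j (a : V), j < 2 * t - 1 → x j = Sum.inl a → ∃ b : V, a ≠ b ∧
      ∀ i, i ≤ DD K → j + i ≤ 2 * t - 1 → x (j + i) = pt (DD K) a b i := by
    intro j a hj hja
    have h1 := hp.adj j hj
    rw [hja] at h1
    obtain ⟨b, hab, h2⟩ := nb_branch h1
    refine ⟨b, hab, ?_⟩
    intro i hi hji
    have := hp.fwd hab (j := j) (i := 0) (by rw [hja, pt_zero]) (by simpa using h2) i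
      (by omega) (by omega)
    rwa [zero_add] at this
  intro k
  induction k with
  | zero =>
    intro hk
    obtain ⟨b, hab, h⟩ := key j0 u (by omega) hu
    exact ⟨u, b, hab, by simpa using h⟩
  | succ k ih =>
    intro hk
    have hk' : j0 + k * DD K < 2 * t - 1 := by
      rw [Nat.succ_mul] at hk; omega
    obtain ⟨a, b, hab, h⟩ := ih hk'
    have hb : x (j0 + (k + 1) * DD K) = Sum.inl b := by
      have := h (DD K) le_rfl (by rw [Nat.succ_mul] at hk; omega)
      rw [pt_D (by omega)] at this
      rw [← this]
      congr 1
      rw [Nat.succ_mul]; omega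
    obtain ⟨d, hbd, h2⟩ := key _ b hk hb
    exact ⟨b, d, hbd, h2⟩

lemma branch (hK : 100 ≤ K) (hc : Good K c) (ht : 0 < t)
    (hp : PSeq (DD K) (hD2 K) x (2 * t - 1))
    (hrep : ∀ i < t, c (x i) = c (x (i + t))) {j0 : ℕ} (hj0 : j0 < t) {u : V}
    (hu : x j0 = Sum.inl u) (hfirst : ∀ j < j0, ∀ a : V, x j ≠ Sum.inl a) : False := by
  have hD := hD2 K
  have hDD : DD K = 100 * K + 11 := rfl
  have hNN : NN K = 50 * K := rfl
  obtain ⟨u', v, huv, F0⟩ := iter hp hu 0 (by omega)
  have F : ∀ i, i ≤ DD K → j0 + i ≤ 2 * t - 1 → x (j0 + i) = pt (DD K) u' v i := by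
    intro i hi hji
    have := F0 i hi (by omega)
    simpa using this
  clear F0
  have huu : u' = u := by
    have := F 0 (by omega) (by omega)
    rw [add_zero, hu, pt_zero] at this
    exact (Sum.inl.inj this).symm
  subst huu
  -- backwards
  have Bk : 0 < j0 → ∃ w, u' ≠ w ∧ w ≠ v ∧ j0 < DD K ∧
      ∀ i ≤ j0, x (j0 - i) = pt (DD K) u' w i := by
    intro h0
    have h1 := (hp.adj (j0 - 1) (by omega)).symm
    have e : j0 - 1 + 1 = j0 := by omega
    rw [e, hu] at h1
    obtain ⟨w, huw, h2⟩ := nb_branch h1
    have B := hp.bwd huw (j := j0 - 1) (i := 0) (by omega) (by rw [e, hu, pt_zero])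
      (by rw [zero_add]; exact h2)
    have hlt : j0 < DD K := by
      by_contra hcon
      have := B (DD K) (by omega) (by omega)
      rw [zero_add, pt_D (by omega)] at this
      exact hfirst _ (by omega) w this
    refine ⟨w, huw, ?_, hlt, ?_⟩
    · rintro rfl
      have h3 := F 1 (by omega) (by omega)
      rw [← h2] at h3
      have := hp.inj _ _ (by omega) (by omega) h3
      omega
    · intro i hi
      have := B i (by omega) (by omega)
      rw [zero_add, e] at this
      exact this
  have Lg := hc.leg u' v huv
  by_cases hshort : t < 7 * K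
  · -- short squares
    have P0 : c (pt (DD K) u' v t) = c (Sum.inl u') := by
      rw [← F t (by omega) (by omega), ← hrep j0 hj0, hu]
    by_cases ht9 : t ≤ 9
    · exact Lg.first t (by omega) ht9 P0
    · by_cases hj9 : 9 ≤ j0
      · obtain ⟨w, huw, hwv, hjD, B⟩ := Bk (by omega)
        have T := Lg.rule t (by omega) hshort P0
        refine (hc.leg u' w huw).nothreat (Threat.congr ?_ T)
        intro j hj
        have e1 := B (j + 1) (by omega)
        have e2 := hrep (j0 - (j + 1)) (by omega)
        have e3 := F (t - 1 - j) (by omega) (by omega)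
        show c (pt (DD K) u' v (t - 1 - j)) = c (pt (DD K) u' w (j + 1))
        rw [← e1, e2, ← e3]
        congr 2
        omega
      · obtain ⟨b, hb1, hb2, hb3⟩ := Lg.lp t (by omega) hshort P0
        apply hb3
        have e1 := F b (by omega) (by omega)
        have e2 := hrep (j0 + b) (by omega)
        have e3 := F (t + b) (by omega) (by omega)
        show c (pt (DD K) u' v (t + b)) = c (pt (DD K) u' v b)
        rw [← e1, e2, ← e3]
        congr 2
        omega
  · -- long squares
    by_cases hcase : t ≤ j0 + 4 * K
    · -- case 2
      obtain ⟨w, huw, hwv, hjD, B⟩ := Bk (by omega)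
      obtain ⟨o, ho, hL⟩ := block (K := K) (z := DD K - j0) (by omega) (by omega)
      refine hc.sep' huw.symm huv (fun h => ?_) (fun h => ?_) hL
        (lw_left (x := t - j0 + o) (by omega) (by omega)) ?_
      · exact huv h.2.symm
      · exact hwv h.2.symm
      · intro i hi
        have e1 := B (j0 - (o + i)) (by omega)
        have e2 := hrep (o + i) (by omega)
        have e3 := F (t - j0 + o + i) (by omega) (by omega)
        rw [pt_symm (by omega) (by omega) huw]
        have a1 : DD K - (DD K - j0 + o + i) = j0 - (o + i) := by omega
        have a2 : j0 - (j0 - (o + i)) = o + i := by omega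
        have a3 : j0 + (t - j0 + o + i) = o + i + t := by omega
        rw [a1, ← e1, a2, e2, ← e3, a3]
    · by_cases h1 : t + K ≤ NN K
      · -- (i)
        obtain ⟨i, hi, hne⟩ := Lg.win 1 (1 + t) le_rfl (by omega) (by omega)
        apply hne
        have e1 := F (1 + i) (by omega) (by omega)
        have e2 := hrep (j0 + (1 + i)) (by omega)
        have e3 := F (1 + t + i) (by omega) (by omega)
        have a3 : j0 + (1 + t + i) = j0 + (1 + i) + t := by omega
        show c (pt (DD K) u' v (1 + i)) = c (pt (DD K) u' v (1 + t + i))
        rw [← e1, e2, ← e3, a3]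
      · by_cases h2 : DD K ≤ t
        · -- (ii-b)
          have hDpos : 0 < DD K := by omega
          set k := (1 + t) / DD K with hk
          set z := (1 + t) % DD K with hz
          have hkz : k * DD K + z = 1 + t := by
            rw [hk, hz, mul_comm]; exact Nat.div_add_mod _ _
          have hzlt : z < DD K := Nat.mod_lt _ hDpos
          -- final contradiction
          have fin : ∀ (a b : V) (o z' : ℕ), a ≠ b → o ≤ K + 10 → 1 ≤ z' → LW K z' →
              (∀ i < K, x (j0 + 1 + t + o + i) = pt (DD K) a b (z' + i)) → False := by
            intro a b o z' hab ho hz1 hLW hx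
            have hz'D : z' + K ≤ DD K := by
              unfold LW at hLW; omega
            have hmem : (a = u' ∧ b = v) ∨ (a = v ∧ b = u') := by
              by_contra hcon
              rw [not_or] at hcon
              refine hc.sep' huv hab hcon.1 hcon.2
                (lw_left (x := 1 + o) (by omega) (by omega)) hLW ?_
              intro i hi
              have e1 := F (1 + o + i) (by omega) (by omega)
              have e2 := hrep (j0 + (1 + o + i)) (by omega)
              have e3 := hx i hi
              have a3 : j0 + 1 + t + o + i = j0 + (1 + o + i) + t := by omega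
              rw [← e1, e2, ← e3, a3]
            have hx0 := hx 0 (by omega)
            rw [add_zero, add_zero] at hx0
            rcases hmem with ⟨rfl, rfl⟩ | ⟨rfl, rfl⟩
            · have e1 := F z' (by omega) (by omega)
              rw [← e1] at hx0
              have := hp.inj _ _ (by omega) (by omega) hx0
              omega
            · have e1 := F (DD K - z') (by omega) (by omega)
              rw [pt_symm (by omega) (by omega) huv, ← e1] at hx0
              have := hp.inj _ _ (by omega) (by omega) hx0
              omega
          by_cases h3 : z + 2 * K + 10 ≤ DD K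
          · -- inside thread k
            have hex : ∃ o, o ≤ K + 10 ∧ 1 ≤ z + o ∧ LW K (z + o) := by
              by_cases hz0 : z = 0
              · exact ⟨K + 10, le_rfl, by omega, by rw [hz0]; exact lw_left (by omega) (by omega)⟩
              · obtain ⟨o, ho, hL⟩ := block (K := K) (z := z) (by omega) h3
                exact ⟨o, ho, by omega, hL⟩
            obtain ⟨o, ho, ho1, hL⟩ := hex
            obtain ⟨a, b, hab, hth⟩ := iter hp hu k (by omega)
            refine fin a b o (z + o) hab ho ho1 hL ?_
            intro i hi
            have := hth (z + o + i) (by omega) (by omega)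
            rw [← this]
            congr 1
            omega
          · by_cases h4 : z + K ≤ DD K
            · obtain ⟨a, b, hab, hth⟩ := iter hp hu k (by omega)
              refine fin a b 0 z hab (by omega) (by omega) (by unfold LW; omega) ?_
              intro i hi
              have := hth (z + i) (by omega) (by omega)
              rw [← this]
              congr 1
              omega
            · have hk1 : (k + 1) * DD K = k * DD K + DD K := Nat.succ_mul _ _
              obtain ⟨a, b, hab, hth⟩ := iter hp hu (k + 1) (by omega)
              refine fin a b (K + 10) (z + K + 10 - DD K) hab (by omega) (by omega)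
                (lw_left (by omega) (by omega)) ?_
              intro i hi
              have := hth (z + K + 10 - DD K + i) (by omega) (by omega)
              rw [← this]
              congr 1
              omega
        · by_cases h5 : 2 * K + 11 ≤ j0
          · -- (iii-a) and part of (ii-a)
            obtain ⟨w, huw, hwv, hjD, B⟩ := Bk (by omega)
            obtain ⟨o, ho, hL⟩ := block (K := K) (z := DD K - t + 1) (by omega) (by omega)
            refine hc.sep' huw huv.symm (fun h => ?_) (fun h => ?_)
              (lw_left (x := 1 + o) (by omega) (by omega)) hL ?_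
            · exact huv h.1.symm
            · exact hwv h.1.symm
            · intro i hi
              have e1 := B (1 + o + i) (by omega)
              have e2 := hrep (j0 - (1 + o + i)) (by omega)
              have e3 := F (t - (1 + o + i)) (by omega) (by omega)
              rw [pt_symm (by omega) (by omega) huv]
              have a1 : DD K - (DD K - t + 1 + o + i) = t - (1 + o + i) := by omega
              have a3 : j0 + (t - (1 + o + i)) = j0 - (1 + o + i) + t := by omega
              rw [a1, ← e1, e2, ← e3, a3]
          · by_cases h6 : j0 + DD K + 2 * K + 10 < 2 * t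
            · -- (iii-b) and part of (ii-a)
              obtain ⟨a, y, hay, hth⟩ := iter hp hu 1 (by omega)
              rw [one_mul] at hth
              have hav : a = v := by
                have e1 := hth 0 (by omega) (by omega)
                have e2 := F (DD K) le_rfl (by omega)
                rw [add_zero, e2, pt_D (by omega), pt_zero] at e1
                exact (Sum.inl.inj e1).symm
              subst hav
              have hyu : y ≠ u' := by
                rintro rfl
                have e1 := hth 1 (by omega) (by omega)
                have e2 := F (DD K - 1) (by omega) (by omega)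
                rw [pt_symm (by omega) (by omega) huv, ← e2] at e1
                have := hp.inj _ _ (by omega) (by omega) e1
                omega
              by_cases h7 : 2 * K + 11 ≤ t
              · obtain ⟨o, ho, hL⟩ := block (K := K) (z := DD K - t + 1) (by omega) (by omega)
                refine hc.sep' hay huv (fun h => ?_) (fun h => ?_)
                  (lw_left (x := 1 + o) (by omega) (by omega)) hL ?_
                · exact huv h.1
                · exact hyu h.1.symm
                · intro i hi
                  have e1 := hth (1 + o + i) (by omega) (by omega)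
                  have e2 := hrep (j0 + (DD K - t + (1 + o + i))) (by omega)
                  have e3 := F (DD K - t + 1 + o + i) (by omega) (by omega)
                  have a1 : j0 + (DD K - t + (1 + o + i)) + t = j0 + DD K + (1 + o + i) := by
                    omega
                  have a2 : j0 + (DD K - t + (1 + o + i)) = j0 + (DD K - t + 1 + o + i) := by
                    omega
                  rw [← e1, ← e3, ← a1, ← e2, a2]
              · omega
            · -- (iii-c)
              obtain ⟨b, hb1, hb2, hb3⟩ := Lg.near t (by omega) (by omega)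
              apply hb3
              have e1 := F b (by omega) (by omega)
              have e2 := hrep (j0 + b) (by omega)
              have e3 := F (b + t) (by omega) (by omega)
              show c (pt (DD K) u' v b) = c (pt (DD K) u' v (b + t))
              rw [← e1, e2, ← e3]
              congr 2
              omega

theorem no_square (hK : 100 ≤ K) (hc : Good K c) (ht : 0 < t)
    (hp : PSeq (DD K) (hD2 K) x (2 * t - 1))
    (hrep : ∀ i < t, c (x i) = c (x (i + t))) : False := by
  classical
  by_cases hb : ∃ j, j < t ∧ ∃ a : V, x j = Sum.inl a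
  · have h1 := Nat.find_spec hb
    obtain ⟨h2, u, h3⟩ := h1
    refine branch hK hc ht hp hrep h2 h3 ?_
    intro j hj a hja
    exact Nat.find_min hb hj ⟨by omega, a, hja⟩
  · by_cases hb' : ∃ j, j < t ∧ ∃ a : V, (fun j => x (2 * t - 1 - j)) j = Sum.inl a
    · obtain ⟨h2, u, h3⟩ := Nat.find_spec hb'
      refine branch hK hc ht hp.rev ?_ h2 h3 ?_
      · intro i hi
        have := hrep (t - 1 - i) (by omega)
        have e1 : t - 1 - i + t = 2 * t - 1 - i := by omega
        have e2 : 2 * t - 1 - (i + t) = t - 1 - i := by omega
        simp only [e2]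
        rw [this, e1]
      · intro j hj a hja
        exact Nat.find_min hb' hj ⟨by omega, a, hja⟩
    · refine nobranch hc ht hp hrep ?_
      intro j hj a hja
      by_cases hjt : j < t
      · exact hb ⟨j, hjt, a, hja⟩
      · refine hb' ⟨2 * t - 1 - j, by omega, a, ?_⟩
        have : 2 * t - 1 - (2 * t - 1 - j) = j := by omega
        simp only [this]
        exact hja

end

end Pool.Agent.H53.NR
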