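import Mathlib
import Pool.Agent.H58.NRDefs
import Pool.Agent.H53.NRGraph1
import Pool.Agent.H53.NRGraph2

/-!
# Colouring the threads one after the other, and the final assembly
-/

set_option autoImplicit false

namespace Pool.Agent.H53.NR

open SimpleGraph Pool.Agent.H58.NR

/-! ### congruences -/

lemma LegGood.congr' {K cc : ℕ} {forb : Finset (List ℕ)} {g g' : ℕ → ℕ} (_hK : 100 ≤ K)
    (h : LegGood K cc forb g) (e : ∀ i, 1 ≤ i → i < DD K → g i = g' i) :
    LegGood K cc forb g' := by
  have hDD : DD K = 100 * K + 11 := rfl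
  have hNN : NN K = 50 * K := rfl
  constructor
  · intro i h1 h2
    rw [← e i h1 (by omega)]
    exact h.first i h1 h2
  · intro T
    apply h.nothreat
    refine Threat.congr ?_ T
    intro j hj
    exact (e (j + 1) (by omega) (by omega)).symm
  · intro t h1 h2 h3
    rw [← e t (by omega) (by omega)] at h3
    refine Threat.congr ?_ (h.rule t h1 h2 h3)
    intro j hj
    exact e (t - 1 - j) (by omega) (by omega)
  · intro t h1 h2 h3
    rw [← e t (by omega) (by omega)] at h3
    obtain ⟨b, hb1, hb2, hb3⟩ := h.lp t h1 h2 h3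
    refine ⟨b, hb1, hb2, ?_⟩
    rw [← e (t + b) (by omega) (by omega), ← e b (by omega) (by omega)]
    exact hb3
  · intro x y h1 h2 h3
    obtain ⟨i, hi, hne⟩ := h.win x y h1 h2 h3
    refine ⟨i, hi, ?_⟩
    rw [← e (x + i) (by omega) (by omega), ← e (y + i) (by omega) (by omega)]
    exact hne
  · intro x h1 h2
    have : window K g' x = window K g x := by
      unfold window
      apply List.map_congr_left
      intro i hi
      rw [List.mem_range] at hi
      exact (e (x + i) (by omega) (by omega)).symm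
    rw [this]
    exact h.avoid x h1 h2
  · intro t h1 h2
    obtain ⟨b, hb1, hb2, hb3⟩ := h.near t h1 h2
    refine ⟨b, hb1, hb2, ?_⟩
    rw [← e b (by omega) (by omega), ← e (b + t) (by omega) (by omega)]
    exact hb3

lemma LegGood.mono_forb {K cc : ℕ} {forb forb' : Finset (List ℕ)} {g : ℕ → ℕ}
    (hs : forb' ⊆ forb) (h : LegGood K cc forb g) : LegGood K cc forb' g :=
  ⟨h.first, h.nothreat, h.rule, h.lp, h.win, fun x h1 h2 h3 => h.avoid x h1 h2 (hs h3), h.near⟩

/-! ### separation of threads -/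

/-- reversal -/
def rv (K : ℕ) (g : ℕ → ℕ) : ℕ → ℕ := fun i => g (DD K - i)

/-- separation of leg windows -/
def Sep (K : ℕ) (g g' : ℕ → ℕ) : Prop :=
  ∀ x y, LW K x → LW K y → ∃ i < K, g (x + i) ≠ g' (y + i)

lemma Sep.symm {K : ℕ} {g g' : ℕ → ℕ} (h : Sep K g g') : Sep K g' g := by
  intro x y hx hy
  obtain ⟨i, hi, hne⟩ := h y x hy hx
  exact ⟨i, hi, hne.symm⟩

lemma window_ne {K : ℕ} {g h : ℕ → ℕ} {x y : ℕ} (hne : window K g x ≠ window K h y) :
    ∃ i < K, g (x + i) ≠ h (y + i) := by
  by_contra hcon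
  push Not at hcon
  apply hne
  unfold window
  apply List.map_congr_left
  intro i hi
  rw [List.mem_range] at hi
  exact hcon i hi

lemma sep_of {K : ℕ} {g g' h h' : ℕ → ℕ}
    (hg : ∀ i, i ≤ DD K → g i = g' (DD K - i)) (hh : ∀ i, i ≤ DD K → h i = h' (DD K - i))
    (A : ∀ x, 1 ≤ x → x + K ≤ NN K + 1 → ∀ y, y ≤ DD K → window K g x ≠ window K h y)
    (B : ∀ x, 1 ≤ x → x + K ≤ NN K + 1 → ∀ y, y ≤ DD K → window K g' x ≠ window K h' y) :
    Sep K g h := by
  have hDD : DD K = 100 * K + 11 := rfl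
  have hNN : NN K = 50 * K := rfl
  intro x y hx hy
  have hyD : 1 ≤ y ∧ y + K ≤ DD K := by unfold LW at hy; omega
  rcases hx with ⟨h1, h2⟩ | ⟨h1, h2⟩
  · exact window_ne (A x h1 h2 y (by omega))
  · obtain ⟨i, hi, hne⟩ := window_ne (B (DD K - x - K + 1) (by omega) (by omega)
      (DD K - y - K + 1) (by omega))
    refine ⟨K - 1 - i, by omega, ?_⟩
    rw [hg _ (by omega), hh _ (by omega)]
    have e1 : DD K - (x + (K - 1 - i)) = DD K - x - K + 1 + i := by omega
    have e2 : DD K - (y + (K - 1 - i)) = DD K - y - K + 1 + i := by omega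
    rw [e1, e2]
    exact hne

lemma rv_rv {K : ℕ} {g : ℕ → ℕ} {i : ℕ} (hi : i ≤ DD K) : g i = rv K g (DD K - i) := by
  unfold rv
  congr 1; omega

/-- all four separations -/
structure Sep4 (K : ℕ) (g g' : ℕ → ℕ) : Prop where
  a : Sep K g g'
  b : Sep K g (rv K g')
  c : Sep K (rv K g) g'
  d : Sep K (rv K g) (rv K g')

lemma Sep4.symm {K : ℕ} {g g' : ℕ → ℕ} (h : Sep4 K g g') : Sep4 K g' g :=
  ⟨h.a.symm, h.c.symm, h.b.symm, h.d.symm⟩

/-- the forbidden windows coming from a thread. -/
def fw (K : ℕ) (g : ℕ → ℕ) : Finset (List ℕ) :=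
  (Finset.range (DD K + 1)).image (window K g) ∪ (Finset.range (DD K + 1)).image (window K (rv K g))

lemma fw_card (K : ℕ) (g : ℕ → ℕ) : (fw K g).card ≤ 2 * (DD K + 1) := by
  unfold fw
  refine (Finset.card_union_le _ _).trans ?_
  have h1 := Finset.card_image_le (s := Finset.range (DD K + 1)) (f := window K g)
  have h2 := Finset.card_image_le (s := Finset.range (DD K + 1)) (f := window K (rv K g))
  rw [Finset.card_range] at h1 h2
  omega

lemma sep4_of {K cc cc' : ℕ} {forb : Finset (List ℕ)} {g h : ℕ → ℕ}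
    (hg : ThreadGood K cc cc' forb g) (hf : fw K h ⊆ forb) : Sep4 K g h := by
  have m1 : ∀ y, y ≤ DD K → window K h y ∈ forb := by
    intro y hy
    apply hf
    unfold fw
    exact Finset.mem_union_left _ (Finset.mem_image_of_mem _ (Finset.mem_range.mpr (by omega)))
  have m2 : ∀ y, y ≤ DD K → window K (rv K h) y ∈ forb := by
    intro y hy
    apply hf
    unfold fw
    exact Finset.mem_union_right _ (Finset.mem_image_of_mem _ (Finset.mem_range.mpr (by omega)))
  have A1 : ∀ x, 1 ≤ x → x + K ≤ NN K + 1 → ∀ y, y ≤ DD K → window K g x ≠ window K h y := by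
    intro x h1 h2 y hy he
    exact hg.left.avoid x h1 h2 (he ▸ m1 y hy)
  have A2 : ∀ x, 1 ≤ x → x + K ≤ NN K + 1 → ∀ y, y ≤ DD K →
      window K g x ≠ window K (rv K h) y := by
    intro x h1 h2 y hy he
    exact hg.left.avoid x h1 h2 (he ▸ m2 y hy)
  have B1 : ∀ x, 1 ≤ x → x + K ≤ NN K + 1 → ∀ y, y ≤ DD K →
      window K (rv K g) x ≠ window K h y := by
    intro x h1 h2 y hy he
    exact hg.right.avoid x h1 h2 (he ▸ m1 y hy)
  have B2 : ∀ x, 1 ≤ x → x + K ≤ NN K + 1 → ∀ y, y ≤ DD K →
      window K (rv K g) x ≠ window K (rv K h) y := by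
    intro x h1 h2 y hy he
    exact hg.right.avoid x h1 h2 (he ▸ m2 y hy)
  have r1 : ∀ (f : ℕ → ℕ) i, i ≤ DD K → f i = rv K f (DD K - i) := fun f i hi => rv_rv hi
  have r2 : ∀ (f : ℕ → ℕ) i, i ≤ DD K → rv K f i = f (DD K - i) := fun f i _ => rfl
  exact ⟨sep_of (r1 g) (r1 h) A1 B2, sep_of (r1 g) (r2 h) A2 B1,
    sep_of (r2 g) (r1 h) B1 A2, sep_of (r2 g) (r2 h) B2 A1⟩

/-! ### colouring the threads one after the other -/

lemma ThreadGood.mono_forb {K cc cc' : ℕ} {forb forb' : Finset (List ℕ)} {g : ℕ → ℕ}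
    (hs : forb' ⊆ forb) (h : ThreadGood K cc cc' forb g) : ThreadGood K cc cc' forb' g :=
  ⟨h.sqfree, LegGood.mono_forb hs h.left, LegGood.mono_forb hs h.right⟩

lemma colour_threads {E : Type} [DecidableEq E] {K C : ℕ} (hK : 100 ≤ K)
    (hT : ∀ (c c' : ℕ) (Λ : ℕ → Finset ℕ) (forb : Finset (List ℕ)),
      (∀ i, (Λ i).card = 4) → forb.card ≤ C * K →
      ∃ g : ℕ → ℕ, (∀ i, 1 ≤ i → i < DD K → g i ∈ Λ i) ∧ ThreadGood K c c' forb g)
    (Λ : E → ℕ → Finset ℕ) (hΛ : ∀ e i, (Λ e i).card = 4) (cb cb' : E → ℕ) (S : Finset E)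
    (hS : S.card * 500 ≤ C) :
    ∃ G : E → ℕ → ℕ,
      (∀ e ∈ S, (∀ i, 1 ≤ i → i < DD K → G e i ∈ Λ e i) ∧
        ThreadGood K (cb e) (cb' e) ∅ (G e)) ∧
      (∀ e ∈ S, ∀ e' ∈ S, e ≠ e' → Sep4 K (G e) (G e')) := by
  induction S using Finset.induction_on with
  | empty => exact ⟨fun _ _ => 0, by simp, by simp⟩
  | insert a S ha ih =>
    have hS' : S.card * 500 ≤ C := by
      refine le_trans (Nat.mul_le_mul_right _ ?_) hS
      exact Finset.card_le_card (Finset.subset_insert a S)
    clear hS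
    obtain ⟨G, hG1, hG2⟩ := ih hS'
    have hDD : DD K = 100 * K + 11 := rfl
    obtain ⟨g, hg1, hg2⟩ := hT (cb a) (cb' a) (Λ a) (S.biUnion (fun e => fw K (G e))) (hΛ a) (by
      refine (Finset.card_biUnion_le_card_mul S _ (2 * (DD K + 1))
        (fun e _ => fw_card K (G e))).trans ?_
      have h1 : 2 * (DD K + 1) ≤ 500 * K := by omega
      calc S.card * (2 * (DD K + 1)) ≤ S.card * (500 * K) := Nat.mul_le_mul_left _ h1
        _ = (S.card * 500) * K := by ring
        _ ≤ C * K := Nat.mul_le_mul_right _ hS')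
    refine ⟨Function.update G a g, ?_, ?_⟩
    · intro e he
      rw [Finset.mem_insert] at he
      by_cases hea : e = a
      · subst hea
        rw [Function.update_self]
        exact ⟨hg1, ThreadGood.mono_forb (Finset.empty_subset _) hg2⟩
      · rw [Function.update_of_ne hea]
        exact hG1 e (he.resolve_left hea)
    · intro e he e' he' hne
      rw [Finset.mem_insert] at he he'
      by_cases hea : e = a
      · subst hea
        have hea' : e' ≠ e := hne.symm
        rw [Function.update_self, Function.update_of_ne hea']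
        exact sep4_of hg2 (Finset.subset_biUnion_of_mem (fun e => fw K (G e))
          (he'.resolve_left hea'))
      · by_cases hea' : e' = a
        · subst hea'
          rw [Function.update_self, Function.update_of_ne hea]
          exact (sep4_of hg2 (Finset.subset_biUnion_of_mem (fun e => fw K (G e))
            (he.resolve_left hea))).symm
        · rw [Function.update_of_ne hea, Function.update_of_ne hea']
          exact hG2 e (he.resolve_left hea) e' (he'.resolve_left hea') hne

/-! ### the good colouring -/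

lemma good_colouring {V : Type} [LinearOrder V] [Fintype V] {K C : ℕ} (hK : 100 ≤ K)
    (hT : ∀ (c c' : ℕ) (Λ : ℕ → Finset ℕ) (forb : Finset (List ℕ)),
      (∀ i, (Λ i).card = 4) → forb.card ≤ C * K →
      ∃ g : ℕ → ℕ, (∀ i, 1 ≤ i → i < DD K → g i ∈ Λ i) ∧ ThreadGood K c c' forb g)
    (hC : Fintype.card (V × V) * 500 ≤ C) (L : W V (DD K) → Finset ℕ)
    (hL : ∀ w, (L w).card = 4) :
    ∃ c : W V (DD K) → ℕ, (∀ w, c w ∈ L w) ∧ Good K c := by
  classical
  have hDD : DD K = 100 * K + 11 := rfl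
  have hNN : NN K = 50 * K := rfl
  have hne : ∀ w, (L w).Nonempty := fun w => Finset.card_pos.mp (by rw [hL w]; norm_num)
  choose d hd using hne
  obtain ⟨G, hG1, hG2⟩ := colour_threads (E := V × V) hK hT
    (fun e i => L (pt (DD K) e.1 e.2 i)) (fun e i => hL _)
    (fun e => d (Sum.inl e.1)) (fun e => d (Sum.inl e.2)) Finset.univ
    (by rw [Finset.card_univ]; exact hC)
  -- the colouring
  let c : W V (DD K) → ℕ := fun w => match w with
    | Sum.inl u => d (Sum.inl u)
    | Sum.inr (u, v, i) => if u < v ∧ 0 < (i : ℕ) then G (u, v) i else d (Sum.inr (u, v, i))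
  have cinl : ∀ u : V, c (Sum.inl u) = d (Sum.inl u) := fun u => rfl
  have clt : ∀ (u v : V), u < v → ∀ i, 1 ≤ i → i < DD K → c (pt (DD K) u v i) = G (u, v) i := by
    intro u v huv i h1 h2
    rw [pt_lt (by omega) h2 huv]
    show (if u < v ∧ 0 < i then G (u, v) i else _) = _
    rw [if_pos ⟨huv, by omega⟩]
  have cgt : ∀ (u v : V), v < u → ∀ i, 1 ≤ i → i < DD K →
      c (pt (DD K) u v i) = rv K (G (v, u)) i := by
    intro u v huv i h1 h2
    rw [pt_symm (by omega) (by omega) huv.ne, clt v u huv _ (by omega) (by omega)]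
    rfl
  refine ⟨c, ?_, ?_⟩
  · rintro (u | ⟨u, v, i⟩)
    · exact hd _
    · show (if u < v ∧ 0 < (i : ℕ) then G (u, v) i else d (Sum.inr (u, v, i))) ∈ _
      split_ifs with h
      · have := (hG1 (u, v) (Finset.mem_univ _)).1 i (by omega) i.2
        simp only at this
        rw [pt_lt h.2 i.2 h.1] at this
        exact this
      · exact hd _
  · constructor
    · intro u v huv p i hp hi hD
      rcases lt_or_gt_of_ne huv with h | h
      · obtain ⟨k, hk, hne⟩ := (hG1 (u, v) (Finset.mem_univ _)).2.sqfree p i hp hi hD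
        refine ⟨k, hk, ?_⟩
        rw [clt u v h _ (by omega) (by omega), clt u v h _ (by omega) (by omega)]
        exact hne
      · obtain ⟨k, hk, hne⟩ := (hG1 (v, u) (Finset.mem_univ _)).2.sqfree p
          (DD K - i - 2 * p + 1) hp (by omega) (by omega)
        refine ⟨p - 1 - k, by omega, ?_⟩
        rw [cgt u v h _ (by omega) (by omega), cgt u v h _ (by omega) (by omega)]
        unfold rv
        have e1 : DD K - (i + (p - 1 - k)) = DD K - i - 2 * p + 1 + p + k := by omega
        have e2 : DD K - (i + p + (p - 1 - k)) = DD K - i - 2 * p + 1 + k := by omega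
        rw [e1, e2]
        exact hne.symm
    · intro u v huv
      rcases lt_or_gt_of_ne huv with h | h
      · refine LegGood.congr' hK (hG1 (u, v) (Finset.mem_univ _)).2.left ?_
        intro i h1 h2
        exact (clt u v h i h1 h2).symm
      · refine LegGood.congr' hK (hG1 (v, u) (Finset.mem_univ _)).2.right ?_
        intro i h1 h2
        exact (cgt u v h i h1 h2).symm
    · intro u v u' v' huv huv' hn1 hn2 x y hx hy
      have hx' : 1 ≤ x ∧ x + K ≤ DD K := by unfold LW at hx; omega
      have hy' : 1 ≤ y ∧ y + K ≤ DD K := by unfold LW at hy; omega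
      rcases lt_or_gt_of_ne huv with h | h <;> rcases lt_or_gt_of_ne huv' with h' | h'
      · obtain ⟨i, hi, hne⟩ := (hG2 (u, v) (Finset.mem_univ _) (u', v') (Finset.mem_univ _)
          (by intro he; simp only [Prod.mk.injEq] at he; exact hn1 ⟨he.1.symm, he.2.symm⟩)).a
          x y hx hy
        refine ⟨i, hi, ?_⟩
        rw [clt u v h _ (by omega) (by omega), clt u' v' h' _ (by omega) (by omega)]
        exact hne
      · obtain ⟨i, hi, hne⟩ := (hG2 (u, v) (Finset.mem_univ _) (v', u') (Finset.mem_univ _)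
          (by intro he; simp only [Prod.mk.injEq] at he; exact hn2 ⟨he.2.symm, he.1.symm⟩)).b
          x y hx hy
        refine ⟨i, hi, ?_⟩
        rw [clt u v h _ (by omega) (by omega), cgt u' v' h' _ (by omega) (by omega)]
        exact hne
      · obtain ⟨i, hi, hne⟩ := (hG2 (v, u) (Finset.mem_univ _) (u', v') (Finset.mem_univ _)
          (by intro he; simp only [Prod.mk.injEq] at he; exact hn2 ⟨he.1.symm, he.2.symm⟩)).c
          x y hx hy
        refine ⟨i, hi, ?_⟩
        rw [cgt u v h _ (by omega) (by omega), clt u' v' h' _ (by omega) (by omega)]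
        exact hne
      · obtain ⟨i, hi, hne⟩ := (hG2 (v, u) (Finset.mem_univ _) (v', u') (Finset.mem_univ _)
          (by intro he; simp only [Prod.mk.injEq] at he; exact hn1 ⟨he.2.symm, he.1.symm⟩)).d
          x y hx hy
        refine ⟨i, hi, ?_⟩
        rw [cgt u v h _ (by omega) (by omega), cgt u' v' h' _ (by omega) (by omega)]
        exact hne

/-! ### assembly -/

theorem assembly : ThreadThm → Target := by
  classical
  intro hTT V _ G
  let _ : LinearOrder V :=
    LinearOrder.lift' (Fintype.equivFin V) (Fintype.equivFin V).injective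
  obtain ⟨K, hK, hT⟩ := hTT (Fintype.card (V × V) * 500)
  have hD := hD2 K
  refine ⟨W V (DD K), inferInstance, HG V (DD K) hD, Sum.inl,
    fun u v h => tw (DD K) hD u v h.ne, Sum.inl_injective, ?_, ?_, ?_, ?_⟩
  · intro u v h
    exact tw_isPath _ _ _ _ _
  · intro u v h x hx
    rw [mem_tw] at hx
    obtain ⟨i, hi, he⟩ := hx
    rcases pt_inl he with h1 | h1
    · exact Or.inl h1.2.symm
    · exact Or.inr h1.2.symm
  · intro u v h u' v' h' w hw hw'
    rw [mem_tw] at hw hw'
    obtain ⟨i, hi, he⟩ := hw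
    obtain ⟨i', hi', he'⟩ := hw'
    rcases Nat.eq_zero_or_pos i with h0 | h0
    · left; exact ⟨u, by rw [← he, h0, pt_zero]⟩
    · rcases hi.lt_or_eq with h1 | h1
      · right
        rw [← he'] at he
        rcases pt_inj h0 h1 h.ne h'.ne he with h2 | h2
        · left; exact ⟨h2.1.symm, h2.2.1.symm⟩
        · right; exact ⟨h2.2.1.symm, h2.1.symm⟩
      · left; exact ⟨v, by rw [← he, h1, pt_D (by omega)]⟩
  · intro L hL
    have hsub : ∀ w, ∃ L' : Finset ℕ, L' ⊆ L w ∧ L'.card = 4 := fun w =>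
      Finset.exists_subset_card_eq (hL w)
    choose L' hL'1 hL'2 using hsub
    obtain ⟨c, hc1, hc2⟩ := good_colouring hK hT le_rfl L' hL'2
    refine ⟨c, fun w => hL'1 w (hc1 w), ?_⟩
    intro a b p t hp ht hlen
    by_contra hcon
    push Not at hcon
    refine no_square (x := p.getVert) (t := t) hK hc2 ht ?_ hcon
    constructor
    · intro j hj
      exact p.adj_getVert_succ (by omega)
    · intro i j hi hj hij
      exact hp.getVert_injOn (by simp; omega) (by simp; omega) hij

end Pool.Agent.H53.NR
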